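import Pool.Agent.W181.WH.Stm

set_option autoImplicit false

namespace Pool.Agent.W389.WH

open MeasureTheory Pool.Agent.W181.WH

/-- the one dimensional kernel -/
noncomputable def hB (B u : ℝ) : ℝ := Real.exp (B * u) * Real.exp (-(Real.pi / 2) * Real.exp (2 * u))

lemma hB_nonneg (B u : ℝ) : 0 ≤ hB B u := by unfold hB; positivity

lemma hB_cont (B : ℝ) : Continuous (hB B) := by unfold hB; fun_prop

lemma hB_int (B : ℝ) (hBB : 1 ≤ B) : Integrable (hB B) := by
  have hbd : ∀ u : ℝ, hB B u ≤ (2 * Real.exp ((B + 1) ^ 2 / 4)) * (1 + u ^ 2)⁻¹ := by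
    intro u
    have h1 : B * u + -(Real.pi / 2) * Real.exp (2 * u) ≤ (B + 1) ^ 2 / 4 - |u| := by
      have hpi := Real.pi_gt_three
      have he := Real.exp_pos (2 * u)
      rcases le_total u 0 with hu | hu
      · rw [abs_of_nonpos hu]
        nlinarith [sq_nonneg (B + 1)]
      · rw [abs_of_nonneg hu]
        have h2 : (2 * u) ^ 2 / 2 ≤ Real.exp (2 * u) := by
          have := Real.quadratic_le_exp_of_nonneg (show 0 ≤ 2 * u by linarith)
          nlinarith
        nlinarith [sq_nonneg (u - (B + 1) / 2), sq_nonneg u]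
    have h2 : (1 + u ^ 2) ≤ 2 * Real.exp |u| := by
      have := Real.quadratic_le_exp_of_nonneg (abs_nonneg u)
      have h3 := sq_abs u
      nlinarith [abs_nonneg u]
    have h3 : (0 : ℝ) < 1 + u ^ 2 := by positivity
    unfold hB
    rw [← Real.exp_add, ← div_eq_mul_inv, le_div_iff₀ h3]
    calc Real.exp (B * u + -(Real.pi / 2) * Real.exp (2 * u)) * (1 + u ^ 2)
        ≤ Real.exp ((B + 1) ^ 2 / 4 - |u|) * (2 * Real.exp |u|) :=
          mul_le_mul (Real.exp_le_exp.2 h1) h2 h3.le (Real.exp_pos _).le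
      _ = 2 * Real.exp ((B + 1) ^ 2 / 4) := by
          rw [Real.exp_sub]
          field_simp
  refine Integrable.mono' (integrable_inv_one_add_sq.const_mul (2 * Real.exp ((B + 1) ^ 2 / 4)))
    (hB_cont B).aestronglyMeasurable ?_
  filter_upwards with u
  rw [Real.norm_eq_abs, abs_of_nonneg (hB_nonneg B u)]
  exact hbd u

/-- the majorant in one variable -/
noncomputable def GG (B p q t : ℝ) : ℝ :=
  Real.exp (B * p) * hB B (t - p) + Real.exp (-(B * q)) * hB B (q - t)

lemma GG_nonneg (B p q t : ℝ) : 0 ≤ GG B p q t := by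
  unfold GG
  have := hB_nonneg B (t - p)
  have := hB_nonneg B (q - t)
  positivity

lemma GG_int (B p q : ℝ) (hBB : 1 ≤ B) : Integrable (GG B p q) :=
  (((hB_int B hBB).comp_sub_right p).const_mul _).add (((hB_int B hBB).comp_sub_left q).const_mul _)

lemma GG_integral (B p q : ℝ) (hBB : 1 ≤ B) : ∫ t, GG B p q t =
    (Real.exp (B * p) + Real.exp (-(B * q))) * ∫ u, hB B u := by
  unfold GG
  rw [integral_add (((hB_int B hBB).comp_sub_right p).const_mul _)
    (((hB_int B hBB).comp_sub_left q).const_mul _), integral_const_mul, integral_const_mul,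
    integral_sub_right_eq_self (hB B), integral_sub_left_eq_self (hB B)]
  ring

lemma GG_eq (B p q t : ℝ) : GG B p q t =
    Real.exp (B * t) * Real.exp (-(Real.pi / 2) * Real.exp (2 * (t - p))) +
    Real.exp (-(B * t)) * Real.exp (-(Real.pi / 2) * Real.exp (2 * (q - t))) := by
  unfold GG hB
  rw [← Real.exp_add, ← Real.exp_add, ← Real.exp_add, ← Real.exp_add, ← Real.exp_add,
    ← Real.exp_add]
  congr 2 <;> ring

lemma GG_mono (B M p q t : ℝ) (hp : |p| ≤ M) (hq : |q| ≤ M) : GG B p q t ≤ GG B M (-M) t := by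
  rw [GG_eq, GG_eq]
  have hpi := Real.pi_pos
  have h1 : Real.exp (2 * (t - M)) ≤ Real.exp (2 * (t - p)) :=
    Real.exp_le_exp.2 (by linarith [(abs_le.1 hp).2])
  have h2 : Real.exp (2 * (-M - t)) ≤ Real.exp (2 * (q - t)) :=
    Real.exp_le_exp.2 (by linarith [(abs_le.1 hq).1])
  refine add_le_add (mul_le_mul_of_nonneg_left (Real.exp_le_exp.2 ?_) (Real.exp_pos _).le)
    (mul_le_mul_of_nonneg_left (Real.exp_le_exp.2 ?_) (Real.exp_pos _).le)
  · nlinarith
  · nlinarith

lemma GG_ge (B p q t : ℝ) :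
    Real.exp (B * |t|) * Real.exp (-((Real.pi * Real.exp (2 * (q - t))
      + Real.pi * Real.exp (2 * (t - p))) / 2)) ≤ GG B p q t := by
  rw [GG_eq]
  have hpi := Real.pi_pos
  have e1 := Real.exp_pos (2 * (q - t))
  have e2 := Real.exp_pos (2 * (t - p))
  have m1 : 0 < Real.pi * Real.exp (2 * (q - t)) := by positivity
  have m2 : 0 < Real.pi * Real.exp (2 * (t - p)) := by positivity
  rcases le_total 0 t with ht | ht
  · rw [abs_of_nonneg ht]
    have h1 : Real.exp (B * t) * Real.exp (-((Real.pi * Real.exp (2 * (q - t))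
      + Real.pi * Real.exp (2 * (t - p))) / 2)) ≤
        Real.exp (B * t) * Real.exp (-(Real.pi / 2) * Real.exp (2 * (t - p))) :=
      mul_le_mul_of_nonneg_left (Real.exp_le_exp.2 (by linarith)) (Real.exp_pos _).le
    have h2 : 0 ≤ Real.exp (-(B * t)) * Real.exp (-(Real.pi / 2) * Real.exp (2 * (q - t))) := by
      positivity
    linarith
  · rw [abs_of_nonpos ht]
    have h1 : Real.exp (B * -t) * Real.exp (-((Real.pi * Real.exp (2 * (q - t))
      + Real.pi * Real.exp (2 * (t - p))) / 2)) ≤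
        Real.exp (-(B * t)) * Real.exp (-(Real.pi / 2) * Real.exp (2 * (q - t))) := by
      rw [mul_neg]
      exact mul_le_mul_of_nonneg_left (Real.exp_le_exp.2 (by linarith)) (Real.exp_pos _).le
    have h2 : 0 ≤ Real.exp (B * t) * Real.exp (-(Real.pi / 2) * Real.exp (2 * (t - p))) := by
      positivity
    linarith

/-- bound of a power by an exponential -/
lemma pow_exp (D : ℕ) : ∃ C : ℝ, 1 ≤ C ∧ ∀ u : ℝ, 0 ≤ u →
    (1 + u) ^ D * Real.exp (-u) ≤ C * Real.exp (-(u / 2)) := by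
  refine ⟨2 ^ D * D.factorial * Real.exp (1 / 2), ?_, ?_⟩
  · have h1 : (1 : ℝ) ≤ 2 ^ D := one_le_pow₀ (by norm_num)
    have h2 : (1 : ℝ) ≤ D.factorial := by exact_mod_cast D.factorial_pos
    have h3 : (1 : ℝ) ≤ Real.exp (1 / 2) := Real.one_le_exp (by norm_num)
    have h4 := one_le_mul_of_one_le_of_one_le h1 h2
    exact one_le_mul_of_one_le_of_one_le h4 h3
  · intro u hu
    have h1 := Real.pow_div_factorial_le_exp ((1 + u) / 2) (by positivity) D
    rw [div_le_iff₀ (by positivity), div_pow, div_le_iff₀ (by positivity)] at h1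
    have h2 : Real.exp ((1 + u) / 2) = Real.exp (1 / 2) * Real.exp (u / 2) := by
      rw [← Real.exp_add]; congr 1; ring
    rw [h2] at h1
    have h3 : Real.exp (-(u / 2)) = Real.exp (u / 2) * Real.exp (-u) := by
      rw [← Real.exp_add]; congr 1; ring
    rw [h3]
    have h4 := mul_le_mul_of_nonneg_right h1 (Real.exp_pos (-u)).le
    linarith

/-- the polynomial is bounded by a product -/
lemma eval_bound {n : ℕ} (f : MvPolynomial (Fin n ⊕ Fin n) ℂ) : ∃ (C : ℝ) (D : ℕ), 0 ≤ C ∧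
    ∀ (r : Fin n ⊕ Fin n → ℝ), (∀ i, 0 ≤ r i) →
      ‖MvPolynomial.eval (fun i => ((r i : ℝ) : ℂ)) f‖ ≤ C * ∏ i, (1 + r i) ^ D := by
  induction f using MvPolynomial.induction_on with
  | C c =>
    refine ⟨‖c‖, 0, norm_nonneg _, fun r _ => ?_⟩
    simp
  | add p q hp hq =>
    obtain ⟨C1, D1, h1, h2⟩ := hp
    obtain ⟨C2, D2, h3, h4⟩ := hq
    refine ⟨C1 + C2, max D1 D2, by positivity, fun r hr => ?_⟩
    rw [map_add]
    refine (norm_add_le _ _).trans ?_
    have e1 : ∏ i, (1 + r i) ^ D1 ≤ ∏ i, (1 + r i) ^ (max D1 D2) :=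
      Finset.prod_le_prod (fun i _ => pow_nonneg (by linarith [hr i]) _)
        (fun i _ => pow_le_pow_right₀ (by linarith [hr i]) (le_max_left _ _))
    have e2 : ∏ i, (1 + r i) ^ D2 ≤ ∏ i, (1 + r i) ^ (max D1 D2) :=
      Finset.prod_le_prod (fun i _ => pow_nonneg (by linarith [hr i]) _)
        (fun i _ => pow_le_pow_right₀ (by linarith [hr i]) (le_max_right _ _))
    have := h2 r hr
    have := h4 r hr
    have := mul_le_mul_of_nonneg_left e1 h1
    have := mul_le_mul_of_nonneg_left e2 h3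
    linarith
  | mul_X p i hp =>
    obtain ⟨C1, D1, h1, h2⟩ := hp
    refine ⟨C1, D1 + 1, h1, fun r hr => ?_⟩
    rw [map_mul, norm_mul, MvPolynomial.eval_X, Complex.norm_real, Real.norm_eq_abs,
      abs_of_nonneg (hr i)]
    have e1 : r i ≤ ∏ j, (1 + r j) := by
      have h5 : (1 + r i) ≤ ∏ j, (1 + r j) := by
        rw [← Finset.prod_erase_mul Finset.univ _ (Finset.mem_univ i)]
        have h6 : (1 : ℝ) ≤ ∏ j ∈ Finset.univ.erase i, (1 + r j) := by
          refine Finset.prod_induction _ (fun x => (1 : ℝ) ≤ x) (fun a b ha hb =>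
            one_le_mul_of_one_le_of_one_le ha hb) le_rfl (fun j _ => by linarith [hr j])
        have h7 : 0 ≤ 1 + r i := by linarith [hr i]
        nlinarith
      linarith
    have e2 : ∏ j, (1 + r j) ^ (D1 + 1) = (∏ j, (1 + r j) ^ D1) * ∏ j, (1 + r j) := by
      rw [← Finset.prod_mul_distrib]
      exact Finset.prod_congr rfl fun j _ => pow_succ _ _
    rw [e2, ← mul_assoc]
    have e3 : 0 ≤ C1 * ∏ j, (1 + r j) ^ D1 :=
      mul_nonneg h1 (Finset.prod_nonneg fun j _ => pow_nonneg (by linarith [hr j]) _)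
    exact mul_le_mul (h2 r hr) e1 (hr i) e3

/-- the real variables -/
noncomputable def rr {n : ℕ} (x : Fin (n + 1) → ℝ) (t : Fin n → ℝ) : Fin n ⊕ Fin n → ℝ
  | Sum.inl k => Real.pi * Real.exp (2 * (x k.succ - t k))
  | Sum.inr k => Real.pi * Real.exp (2 * (t k - x k.castSucc))

lemma rr_nonneg {n : ℕ} (x : Fin (n + 1) → ℝ) (t : Fin n → ℝ) (i : Fin n ⊕ Fin n) :
    0 ≤ rr x t i := by
  rcases i with k | k <;> (unfold rr; positivity)

lemma rs_eq {n : ℕ} (x : Fin (n + 1) → ℝ) (t : Fin n → ℝ) :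
    rs x t = fun i => ((rr x t i : ℝ) : ℂ) := by
  funext i
  rcases i with k | k <;> rfl

lemma norm_Qk {n : ℕ} (a : ℂ) (x : Fin (n + 1) → ℝ) (t : Fin n → ℝ) :
    ‖Qk (2 * a) x t‖ ≤ Real.exp (2 * ‖a‖ * (∑ i, |x i| + ∑ i, |t i|)) *
      ∏ i, Real.exp (-(rr x t i)) := by
  unfold Qk
  rw [norm_mul, Complex.norm_exp, Complex.norm_real, Real.norm_eq_abs,
    abs_of_pos (Real.exp_pos _)]
  have h1 : (2 * a * ((∑ i, x i - ∑ i, t i : ℝ) : ℂ)).re ≤
      2 * ‖a‖ * (∑ i, |x i| + ∑ i, |t i|) := by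
    rw [Complex.re_mul_ofReal]
    have h2 : (2 * a).re = 2 * a.re := by simp
    rw [h2]
    have h3 : |2 * a.re * (∑ i, x i - ∑ i, t i)| ≤ 2 * ‖a‖ * (∑ i, |x i| + ∑ i, |t i|) := by
      rw [abs_mul, abs_mul, abs_two]
      have h4 : |∑ i, x i - ∑ i, t i| ≤ ∑ i, |x i| + ∑ i, |t i| :=
        (abs_sub _ _).trans (add_le_add (Finset.abs_sum_le_sum_abs _ _)
          (Finset.abs_sum_le_sum_abs _ _))
      have h5 := Complex.abs_re_le_norm a
      exact mul_le_mul (by linarith) h4 (abs_nonneg _) (by positivity)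
    exact (le_abs_self _).trans h3
  refine mul_le_mul (Real.exp_le_exp.2 h1) (le_of_eq ?_) (Real.exp_pos _).le
    (Real.exp_pos _).le
  rw [← Real.exp_sum, Fintype.sum_sum_type]
  congr 1
  rw [← Finset.sum_add_distrib, Finset.mul_sum]
  refine Finset.sum_congr rfl fun k _ => ?_
  unfold rr
  ring

lemma main_bound (n : ℕ) (a : ℂ) (H : (Fin n → ℝ) → ℂ) (f : MvPolynomial (Fin n ⊕ Fin n) ℂ)
    (hH : ExpGr H) : ∃ K B : ℝ, 0 ≤ K ∧ 1 ≤ B ∧ ∀ (x : Fin (n + 1) → ℝ) (t : Fin n → ℝ),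
      ‖MvPolynomial.eval (rs x t) f * Qk (2 * a) x t * H t‖ ≤
        K * Real.exp (B * ∑ i, |x i|) * ∏ k, GG B (x k.castSucc) (x k.succ) (t k) := by
  obtain ⟨CH, b, hH⟩ := hH
  obtain ⟨Cf, D, hCf, hf⟩ := eval_bound f
  obtain ⟨C', hC', hpow⟩ := pow_exp D
  have hCH : 0 ≤ CH := by
    have h1 := (norm_nonneg _).trans (hH 0)
    by_contra hc
    push Not at hc
    have := mul_neg_of_neg_of_pos hc (Real.exp_pos (b * ∑ i, |(0 : Fin n → ℝ) i|))
    linarith
  refine ⟨Cf * CH * ∏ _i : Fin n ⊕ Fin n, C', 1 + |b| + 2 * ‖a‖, by positivity,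
    by linarith [abs_nonneg b, norm_nonneg a], ?_⟩
  intro x t
  set B := 1 + |b| + 2 * ‖a‖ with hB
  set X := ∑ i, |x i| with hX
  set T := ∑ i, |t i| with hT
  have hX0 : 0 ≤ X := Finset.sum_nonneg fun i _ => abs_nonneg _
  have hT0 : 0 ≤ T := Finset.sum_nonneg fun i _ => abs_nonneg _
  have h1 : ‖MvPolynomial.eval (rs x t) f‖ ≤ Cf * ∏ i, (1 + rr x t i) ^ D := by
    rw [rs_eq]
    exact hf (rr x t) (rr_nonneg x t)
  have h2 := norm_Qk a x t
  have h3 : ‖H t‖ ≤ CH * Real.exp (|b| * T) := by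
    refine (hH t).trans (mul_le_mul_of_nonneg_left (Real.exp_le_exp.2 ?_) hCH)
    exact mul_le_mul_of_nonneg_right (le_abs_self b) hT0
  have hP0 : 0 ≤ ∏ i, (1 + rr x t i) ^ D :=
    Finset.prod_nonneg fun i _ => pow_nonneg (by linarith [rr_nonneg x t i]) _
  have h4 : (∏ i, (1 + rr x t i) ^ D) * ∏ i, Real.exp (-(rr x t i)) ≤
      (∏ _i : Fin n ⊕ Fin n, C') * ∏ i, Real.exp (-(rr x t i / 2)) := by
    rw [← Finset.prod_mul_distrib, ← Finset.prod_mul_distrib]
    refine Finset.prod_le_prod (fun i _ => ?_) (fun i _ => hpow _ (rr_nonneg x t i))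
    have := rr_nonneg x t i
    positivity
  have h5 : Real.exp (B * T) * ∏ i, Real.exp (-(rr x t i / 2)) ≤
      ∏ k, GG B (x k.castSucc) (x k.succ) (t k) := by
    rw [hT, Finset.mul_sum, Real.exp_sum, Fintype.prod_sum_type, ← Finset.prod_mul_distrib,
      ← Finset.prod_mul_distrib]
    refine Finset.prod_le_prod (fun i _ => by positivity) (fun k _ => ?_)
    refine le_trans (le_of_eq ?_) (GG_ge B (x k.castSucc) (x k.succ) (t k))
    rw [← Real.exp_add (-(rr x t (Sum.inl k) / 2))]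
    congr 2
    unfold rr
    ring
  rw [norm_mul, norm_mul]
  calc ‖MvPolynomial.eval (rs x t) f‖ * ‖Qk (2 * a) x t‖ * ‖H t‖
      ≤ (Cf * ∏ i, (1 + rr x t i) ^ D) * (Real.exp (2 * ‖a‖ * (X + T)) *
          ∏ i, Real.exp (-(rr x t i))) * (CH * Real.exp (|b| * T)) := by
        refine mul_le_mul (mul_le_mul h1 h2 (norm_nonneg _) (mul_nonneg hCf hP0)) h3
          (norm_nonneg _) ?_
        have : 0 ≤ ∏ i, Real.exp (-(rr x t i)) := Finset.prod_nonneg fun i _ => (Real.exp_pos _).le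
        positivity
    _ = Cf * CH * ((∏ i, (1 + rr x t i) ^ D) * ∏ i, Real.exp (-(rr x t i))) *
          (Real.exp (2 * ‖a‖ * (X + T)) * Real.exp (|b| * T)) := by ring
    _ ≤ Cf * CH * ((∏ _i : Fin n ⊕ Fin n, C') * ∏ i, Real.exp (-(rr x t i / 2))) *
          (Real.exp (B * X) * Real.exp (B * T)) := by
        have h6 : Real.exp (2 * ‖a‖ * (X + T)) * Real.exp (|b| * T) ≤
            Real.exp (B * X) * Real.exp (B * T) := by
          rw [← Real.exp_add, ← Real.exp_add]
          refine Real.exp_le_exp.2 ?_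
          rw [hB]
          nlinarith [mul_nonneg (abs_nonneg b) hX0]
        refine mul_le_mul (mul_le_mul_of_nonneg_left h4 (by positivity)) h6 (by positivity) ?_
        have : 0 ≤ ∏ i, Real.exp (-(rr x t i / 2)) :=
          Finset.prod_nonneg fun i _ => (Real.exp_pos _).le
        positivity
    _ = (Cf * CH * ∏ _i : Fin n ⊕ Fin n, C') * Real.exp (B * X) *
          (Real.exp (B * T) * ∏ i, Real.exp (-(rr x t i / 2))) := by ring
    _ ≤ (Cf * CH * ∏ _i : Fin n ⊕ Fin n, C') * Real.exp (B * X) *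
          ∏ k, GG B (x k.castSucc) (x k.succ) (t k) :=
        mul_le_mul_of_nonneg_left h5 (by positivity)

lemma prod_int {n : ℕ} (B : ℝ) (hB : 1 ≤ B) (p q : Fin n → ℝ) :
    Integrable (fun t : Fin n → ℝ => ∏ k, GG B (p k) (q k) (t k)) :=
  Integrable.fintype_prod (f := fun k t => GG B (p k) (q k) t) (fun k => GG_int B (p k) (q k) hB)

lemma cont_int {n : ℕ} (a : ℂ) (H : (Fin n → ℝ) → ℂ) (f : MvPolynomial (Fin n ⊕ Fin n) ℂ)
    (hH : Continuous H) (x : Fin (n + 1) → ℝ) :
    Continuous (fun t : Fin n → ℝ => MvPolynomial.eval (rs x t) f * Qk (2 * a) x t * H t) := by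
  have h1 : Continuous (fun t : Fin n → ℝ => rs x t) := by
    rw [continuous_pi_iff]
    rintro (k | k)
    · show Continuous fun t : Fin n → ℝ => ((Real.pi * Real.exp (2 * (x k.succ - t k)) : ℝ) : ℂ)
      fun_prop
    · show Continuous fun t : Fin n → ℝ => ((Real.pi * Real.exp (2 * (t k - x k.castSucc)) : ℝ) : ℂ)
      fun_prop
  have h2 : Continuous (fun t : Fin n → ℝ => MvPolynomial.eval (rs x t) f) :=
    (MvPolynomial.continuous_eval f).comp h1
  have h3 : Continuous (fun t : Fin n → ℝ => Qk (2 * a) x t) := by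
    unfold Qk
    fun_prop
  exact (h2.mul h3).mul hH

theorem t_kki : S_KKI := by
  intro n a H f hH hE
  obtain ⟨K, B, hK, h1B, hb⟩ := main_bound n a H f hE
  have hint : ∀ x, Integrable (fun t : Fin n → ℝ =>
      MvPolynomial.eval (rs x t) f * Qk (2 * a) x t * H t) := by
    intro x
    refine Integrable.mono' ((prod_int B h1B (fun k => x k.castSucc) (fun k => x k.succ)).const_mul
      (K * Real.exp (B * ∑ i, |x i|))) (cont_int a H f hH x).aestronglyMeasurable ?_
    filter_upwards with t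
    exact hb x t
  refine ⟨hint, ?_⟩
  set I := ∫ u, hB B u with hI
  have hI0 : 0 ≤ I := integral_nonneg fun u => hB_nonneg B u
  refine ⟨K * (2 * I) ^ n, 3 * B, fun x => ?_⟩
  have hx0 : 0 ≤ ∑ i, |x i| := Finset.sum_nonneg fun i _ => abs_nonneg _
  have h1 : ‖KK a H f x‖ ≤ K * Real.exp (B * ∑ i, |x i|) *
      ∏ k : Fin n, ∫ t, GG B (x k.castSucc) (x k.succ) t := by
    unfold KK
    rw [← integral_fintype_prod_volume_eq_prod (fun (k : Fin n) (t : ℝ) =>
      GG B (x k.castSucc) (x k.succ) t), ← integral_const_mul]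
    exact norm_integral_le_of_norm_le ((prod_int B h1B (fun k => x k.castSucc)
      (fun k => x k.succ)).const_mul _) (Filter.Eventually.of_forall fun t => hb x t)
  have h2 : ∏ k : Fin n, ∫ t, GG B (x k.castSucc) (x k.succ) t ≤
      ∏ k : Fin n, (2 * I) * Real.exp (B * (|x k.castSucc| + |x k.succ|)) := by
    refine Finset.prod_le_prod (fun k _ => integral_nonneg fun t => GG_nonneg _ _ _ _)
      (fun k _ => ?_)
    rw [GG_integral B _ _ h1B]
    have h3 : Real.exp (B * x k.castSucc) ≤ Real.exp (B * (|x k.castSucc| + |x k.succ|)) := by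
      refine Real.exp_le_exp.2 (mul_le_mul_of_nonneg_left ?_ (by linarith))
      linarith [le_abs_self (x k.castSucc), abs_nonneg (x k.succ)]
    have h4 : Real.exp (-(B * x k.succ)) ≤ Real.exp (B * (|x k.castSucc| + |x k.succ|)) := by
      refine Real.exp_le_exp.2 ?_
      rw [← mul_neg]
      refine mul_le_mul_of_nonneg_left ?_ (by linarith)
      linarith [neg_abs_le (x k.succ), abs_nonneg (x k.castSucc)]
    have h5 := mul_le_mul_of_nonneg_right (add_le_add h3 h4) hI0
    linarith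
  have h3 : ∏ k : Fin n, (2 * I) * Real.exp (B * (|x k.castSucc| + |x k.succ|)) ≤
      (2 * I) ^ n * Real.exp (2 * B * ∑ i, |x i|) := by
    rw [Finset.prod_mul_distrib, Finset.prod_const, Finset.card_univ, Fintype.card_fin,
      ← Real.exp_sum, ← Finset.mul_sum, Finset.sum_add_distrib]
    refine mul_le_mul_of_nonneg_left (Real.exp_le_exp.2 ?_) (by positivity)
    have h4 : ∑ k : Fin n, |x k.castSucc| ≤ ∑ i, |x i| := by
      rw [Fin.sum_univ_castSucc (fun i => |x i|)]
      linarith [abs_nonneg (x (Fin.last n))]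
    have h5 : ∑ k : Fin n, |x k.succ| ≤ ∑ i, |x i| := by
      rw [Fin.sum_univ_succ (fun i => |x i|)]
      linarith [abs_nonneg (x 0)]
    nlinarith
  calc ‖KK a H f x‖ ≤ K * Real.exp (B * ∑ i, |x i|) *
        ((2 * I) ^ n * Real.exp (2 * B * ∑ i, |x i|)) :=
        h1.trans (mul_le_mul_of_nonneg_left (h2.trans h3) (by positivity))
    _ = K * (2 * I) ^ n * (Real.exp (B * ∑ i, |x i|) * Real.exp (2 * B * ∑ i, |x i|)) := by ring
    _ = K * (2 * I) ^ n * Real.exp (3 * B * ∑ i, |x i|) := by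
        rw [← Real.exp_add]
        congr 2
        ring

theorem t_kki2 : S_KKI2 := by
  intro n a H f hH hE M
  obtain ⟨K, B, hK, hB, hb⟩ := main_bound n a H f hE
  refine ⟨fun t => K * Real.exp (B * ((n + 1) * M)) * ∏ k, GG B M (-M) (t k),
    (prod_int B hB (fun _ => M) (fun _ => -M)).const_mul _, ?_⟩
  intro x hx t
  refine (hb x t).trans ?_
  have h1 : ∑ i, |x i| ≤ (n + 1) * M := by
    calc ∑ i, |x i| ≤ ∑ _i : Fin (n + 1), M := Finset.sum_le_sum fun i _ => hx i
      _ = (n + 1) * M := by simp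
  have h2 : Real.exp (B * ∑ i, |x i|) ≤ Real.exp (B * ((n + 1) * M)) :=
    Real.exp_le_exp.2 (mul_le_mul_of_nonneg_left h1 (by linarith))
  have h3 : ∏ k : Fin n, GG B (x k.castSucc) (x k.succ) (t k) ≤ ∏ k : Fin n, GG B M (-M) (t k) :=
    Finset.prod_le_prod (fun k _ => GG_nonneg _ _ _ _) (fun k _ => GG_mono B M _ _ _ (hx _) (hx _))
  exact mul_le_mul (mul_le_mul_of_nonneg_left h2 hK) h3
    (Finset.prod_nonneg fun k _ => GG_nonneg _ _ _ _) (by positivity)

end Pool.Agent.W389.WH
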